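import Mathlib.Geometry.Manifold.Instances.Icc
import Mathlib.Geometry.Manifold.Diffeomorph
import Mathlib.Topology.Instances.AddCircle.Real

/-!
The circle of length two as a manifold modelled on the half line.
-/

set_option autoImplicit false

open Set WithLp
open scoped Manifold Topology ContDiff

namespace Pool.Agent.Q92.Dbl

/-- the circle of length two -/
abbrev C2 : Type := AddCircle (2 : ℝ)

instance fact2 : Fact (0 < (2 : ℝ)) := ⟨by norm_num⟩

/-- The representative of a point of the circle in `[a, a + 2)`. -/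
noncomputable def rep (a : ℝ) (p : C2) : ℝ := (AddCircle.equivIco (2 : ℝ) a p : ℝ)

lemma rep_mem (a : ℝ) (p : C2) : rep a p ∈ Ico a (a + 2) := (AddCircle.equivIco (2 : ℝ) a p).2

lemma coe_rep (a : ℝ) (p : C2) : ((rep a p : ℝ) : C2) = p := AddCircle.coe_equivIco

lemma rep_coe {a x : ℝ} (hx : x ∈ Ico a (a + 2)) : rep a (x : C2) = x :=
  AddCircle.equivIco_coe_of_mem hx

lemma rep_mem_Ioo {a : ℝ} {p : C2} (hp : p ≠ (a : C2)) : rep a p ∈ Ioo a (a + 2) := by
  have h := rep_mem a p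
  refine ⟨lt_of_le_of_ne h.1 ?_, h.2⟩
  intro h'
  apply hp
  rw [← coe_rep a p, ← h']

lemma coe_ne {a x : ℝ} (hx : x ∈ Ioo a (a + 2)) : (x : C2) ≠ (a : C2) := by
  intro h
  have := (AddCircle.coe_eq_coe_iff_of_mem_Ico (p := (2 : ℝ)) (a := a)
    (Ioo_subset_Ico_self hx) (left_mem_Ico.2 (by linarith))).1 h
  exact absurd this hx.1.ne'

lemma continuousOn_rep (a : ℝ) : ContinuousOn (rep a) ({(a : C2)}ᶜ : Set C2) := by
  intro p hp
  exact (continuousAt_subtype_val.comp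
    (AddCircle.continuousAt_equivIco (2 : ℝ) a (by simpa using hp))).continuousWithinAt

lemma coe_add_int (x : ℝ) (n : ℤ) : ((x + n * 2 : ℝ) : C2) = (x : C2) := by
  rw [AddCircle.coe_add]
  have : ((n * 2 : ℝ) : C2) = 0 := by
    rw [AddCircle.coe_eq_zero_iff]
    exact ⟨n, by simp⟩
  rw [this, add_zero]

lemma coe_eq_iff {x y : ℝ} : (x : C2) = (y : C2) ↔ ∃ n : ℤ, x = y + n * 2 := by
  constructor
  · intro h
    have h' : ((x - y : ℝ) : C2) = 0 := by rw [AddCircle.coe_sub, h, sub_self]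
    rw [AddCircle.coe_eq_zero_iff] at h'
    obtain ⟨n, hn⟩ := h'
    refine ⟨n, ?_⟩
    rw [zsmul_eq_mul] at hn
    linarith
  · rintro ⟨n, rfl⟩
    exact coe_add_int y n

/-- The chart of the circle on the complement of the point `a`. -/
noncomputable def chC (a : ℝ) : OpenPartialHomeomorph C2 (EuclideanHalfSpace 1) where
  source := {(a : C2)}ᶜ
  target := {z : EuclideanHalfSpace 1 | 0 < z.val 0 ∧ z.val 0 < 2}
  toFun := fun p => ⟨toLp 2 fun _ ↦ rep a p - a, sub_nonneg.mpr (rep_mem a p).1⟩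
  invFun := fun z => ((z.val 0 + a : ℝ) : C2)
  map_source' := by
    intro p hp
    have := rep_mem_Ioo (a := a) (p := p) (by simpa using hp)
    constructor
    · show 0 < rep a p - a
      linarith [this.1]
    · show rep a p - a < 2
      linarith [this.2]
  map_target' := by
    intro z hz
    have h := hz
    simp only [mem_ofPred_eq] at h
    exact coe_ne ⟨by linarith [h.1], by linarith [h.2]⟩
  left_inv' := by
    intro p hp
    show ((rep a p - a + a : ℝ) : C2) = p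
    rw [sub_add_cancel, coe_rep]
  right_inv' := by
    rintro ⟨z, hz⟩ h'z
    rw [Subtype.mk_eq_mk]
    ext i
    rw [Subsingleton.elim i 0]
    simp only [mem_ofPred_eq] at h'z
    show rep a ((z 0 + a : ℝ) : C2) - a = z 0
    rw [rep_coe ⟨by linarith [h'z.1], by linarith [h'z.2]⟩]
    ring
  open_source := isOpen_compl_singleton
  open_target := by
    have h1 : IsOpen { z : ℝ | 0 < z ∧ z < 2 } := isOpen_Ioo
    have : IsOpen { z : EuclideanSpace ℝ (Fin 1) | 0 < z 0 ∧ z 0 < 2 } :=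
      h1.preimage (@PiLp.continuous_apply 2 (Fin 1) (fun _ => ℝ) _ 0)
    exact this.preimage continuous_subtype_val
  continuousOn_toFun := by
    refine (Topology.IsInducing.subtypeVal).continuousOn_iff.2 ?_
    have h := continuousOn_rep a
    have h2 : ContinuousOn (fun p : C2 => (fun _ : Fin 1 => rep a p - a)) ({(a : C2)}ᶜ) :=
      continuousOn_pi.2 fun _ => h.sub continuousOn_const
    exact (PiLp.continuous_toLp 2 (fun _ : Fin 1 => ℝ)).comp_continuousOn h2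
  continuousOn_invFun := by
    apply Continuous.continuousOn
    have h1 : Continuous fun z : EuclideanHalfSpace 1 => z.val 0 + a := by fun_prop
    exact (AddCircle.continuous_mk' (2 : ℝ)).comp h1

/-- The charted space structure on the circle. -/
noncomputable instance chartedC2 : ChartedSpace (EuclideanHalfSpace 1) C2 where
  atlas := range chC
  chartAt p := chC (rep 0 p - 1)
  mem_chart_source p := by
    show p ≠ _
    have := coe_ne (a := rep 0 p - 1) (x := rep 0 p) ⟨by linarith, by linarith⟩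
    rwa [coe_rep] at this
  chart_mem_atlas p := mem_range_self _

instance manifoldC2 (k : WithTop ℕ∞) : IsManifold (𝓡∂ 1) k C2 := by
  apply isManifold_of_contDiffOn
  rintro e e' ⟨a, rfl⟩ ⟨b, rfl⟩
  intro v hv
  obtain ⟨hv1, hv2⟩ := hv
  rw [range_modelWithCornersEuclideanHalfSpace] at hv2
  simp only [mem_ofPred_eq] at hv2
  have hv1' : ((𝓡∂ 1).symm v) ∈ (chC a).target ∧ (chC a).symm ((𝓡∂ 1).symm v) ∈ (chC b).source := by
    simpa using hv1
  obtain ⟨ht, hs⟩ := hv1'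
  have hI : ∀ w : EuclideanSpace ℝ (Fin 1), ((𝓡∂ 1).symm w).val 0 = max (w 0) 0 := by
    intro w
    simp [modelWithCornersEuclideanHalfSpace_symm_apply]
  have hv0 : 0 < v 0 ∧ v 0 < 2 := by
    have h1 : 0 < ((𝓡∂ 1).symm v).val 0 ∧ ((𝓡∂ 1).symm v).val 0 < 2 := ht
    rw [hI, max_eq_left hv2] at h1
    exact h1
  have hs' : ((v 0 + a : ℝ) : C2) ≠ (b : C2) := by
    have h1 : (((((𝓡∂ 1).symm v).val 0 + a : ℝ)) : C2) ≠ (b : C2) := hs
    rwa [hI, max_eq_left hv2] at h1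
  have hr := rep_mem_Ioo hs'
  obtain ⟨n, hn⟩ := coe_eq_iff.1 (coe_rep b ((v 0 + a : ℝ) : C2))
  have hsm : ContDiff ℝ k (fun w : EuclideanSpace ℝ (Fin 1) =>
      (show EuclideanSpace ℝ (Fin 1) from toLp 2 fun (_ : Fin 1) ↦ w 0 + a + n * 2 - b)) := by
    dsimp
    apply contDiff_euclidean.2 (fun i ↦ by fun_prop)
  refine hsm.contDiffWithinAt.congr_of_eventuallyEq_of_mem ?_ ⟨hv1, by
    rw [range_modelWithCornersEuclideanHalfSpace]; exact hv2⟩
  have hcont : Continuous fun w : EuclideanSpace ℝ (Fin 1) => w 0 + a + n * 2 := by fun_prop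
  have hnear : ∀ᶠ w : EuclideanSpace ℝ (Fin 1) in 𝓝 v, w 0 + a + n * 2 ∈ Ioo b (b + 2) := by
    apply hcont.continuousAt.eventually_mem
    apply isOpen_Ioo.mem_nhds
    rw [← hn]
    exact hr
  have hnear2 : ∀ᶠ w : EuclideanSpace ℝ (Fin 1) in 𝓝 v, 0 < w 0 := by
    have hcont2 : Continuous fun w : EuclideanSpace ℝ (Fin 1) => w 0 := by fun_prop
    exact hcont2.continuousAt.eventually_mem (isOpen_Ioi.mem_nhds hv0.1)
  filter_upwards [nhdsWithin_le_nhds hnear, nhdsWithin_le_nhds hnear2] with w hw hw2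
  ext i
  show rep b ((((𝓡∂ 1).symm w).val 0 + a : ℝ) : C2) - b = w 0 + a + n * 2 - b
  rw [hI, max_eq_left hw2.le, ← coe_add_int (w 0 + a) n, rep_coe (Ioo_subset_Ico_self hw)]

/-- the projection of the line to the circle is smooth -/
lemma contMDiff_coe (k : WithTop ℕ∞) :
    ContMDiff 𝓘(ℝ, ℝ) (𝓡∂ 1) k (fun x : ℝ => (x : C2)) := by
  intro x
  have h1 : ContMDiffOn (𝓡∂ 1) (𝓡∂ 1) k (chC (x - 1)).symm (chC (x - 1)).target :=
    contMDiffOn_symm_of_mem_maximalAtlas (IsManifold.subset_maximalAtlas (mem_range_self _))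
  have h2 : ContMDiffOn 𝓘(ℝ, EuclideanSpace ℝ (Fin 1)) (𝓡∂ 1) k (𝓡∂ 1).symm (range (𝓡∂ 1)) :=
    ModelWithCorners.contMDiffOn_symm _
  have h3 : ContMDiff 𝓘(ℝ, ℝ) 𝓘(ℝ, EuclideanSpace ℝ (Fin 1)) k
      (fun y : ℝ => (show EuclideanSpace ℝ (Fin 1) from toLp 2 fun (_ : Fin 1) ↦ y - (x - 1))) := by
    apply ContDiff.contMDiff
    dsimp
    apply contDiff_euclidean.2 (fun i ↦ by fun_prop)
  have hx : (x : ℝ) ∈ Ioo (x - 1) (x + 1) := ⟨by linarith, by linarith⟩
  have h4 : ContMDiffOn 𝓘(ℝ, ℝ) (𝓡∂ 1) k (fun x : ℝ => (x : C2)) (Ioo (x - 1) (x + 1)) := by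
    have h5 := (h1.comp (h2.comp (h3.contMDiffOn (s := Ioo (x - 1) (x + 1))) (by
      intro y hy
      rw [range_modelWithCornersEuclideanHalfSpace]
      show 0 ≤ y - (x - 1)
      linarith [hy.1])) (by
      intro y hy
      constructor
      · show 0 < max (y - (x - 1)) 0
        exact lt_max_of_lt_left (by linarith [hy.1])
      · show max (y - (x - 1)) 0 < 2
        exact max_lt (by linarith [hy.2]) (by norm_num)))
    refine h5.congr ?_
    intro y hy
    show (y : C2) = ((max (y - (x - 1)) 0 + (x - 1) : ℝ) : C2)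
    rw [max_eq_left (by linarith [hy.1]), sub_add_cancel]
  exact (h4 x hx).contMDiffAt (Ioo_mem_nhds hx.1 hx.2)

/-- the local sections of the projection are smooth -/
lemma contMDiffAt_rep (k : WithTop ℕ∞) (a : ℝ) {p : C2} (hp : p ≠ (a : C2)) :
    ContMDiffAt (𝓡∂ 1) 𝓘(ℝ, ℝ) k (rep a) p := by
  have h1 : ContMDiffAt (𝓡∂ 1) (𝓡∂ 1) k (chC a) p :=
    contMDiffAt_of_mem_maximalAtlas (IsManifold.subset_maximalAtlas (mem_range_self _))
      (by exact hp)
  have h2 : ContMDiff (𝓡∂ 1) 𝓘(ℝ, EuclideanSpace ℝ (Fin 1)) k (𝓡∂ 1) := ModelWithCorners.contMDiff _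
  have h3 : ContMDiff 𝓘(ℝ, EuclideanSpace ℝ (Fin 1)) 𝓘(ℝ, ℝ) k
      (fun v : EuclideanSpace ℝ (Fin 1) => v 0 + a) := by
    apply ContDiff.contMDiff
    fun_prop
  have h4 := (h3.comp h2).contMDiffAt.comp p h1
  refine h4.congr_of_eventuallyEq ?_
  filter_upwards with q
  show rep a q = rep a q - a + a
  ring

/-- A self map of the circle which near each point is induced by a smooth self map of the line is
smooth. -/
lemma contMDiff_of_lift {k : WithTop ℕ∞} (h : C2 → C2)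
    (H : ∀ x0 : ℝ, x0 ∈ Ioc (-1 : ℝ) 1 → ∃ F : ℝ → ℝ, ContDiffAt ℝ k F x0 ∧
      ∀ᶠ x : ℝ in 𝓝 x0, h (x : C2) = ((F x : ℝ) : C2)) :
    ContMDiff (𝓡∂ 1) (𝓡∂ 1) k h := by
  intro p
  obtain ⟨x0, hx0, rfl⟩ : ∃ x0 ∈ Ioc (-1 : ℝ) 1, ((x0 : ℝ) : C2) = p := by
    have h1 : p ∈ ((↑) : ℝ → C2) '' Ioc (-1 : ℝ) (-1 + 2) := by
      rw [AddCircle.coe_image_Ioc_eq]; trivial
    obtain ⟨x, hx, rfl⟩ := h1
    exact ⟨x, ⟨hx.1, by linarith [hx.2]⟩, rfl⟩
  obtain ⟨F, hF, hev⟩ := H x0 hx0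
  have hmem : x0 ∈ Ioo (x0 - 1) (x0 - 1 + 2) := ⟨by linarith, by linarith⟩
  have hne : ((x0 : ℝ) : C2) ≠ ((x0 - 1 : ℝ) : C2) := coe_ne hmem
  have hr := contMDiffAt_rep k (x0 - 1) hne
  have hrx : rep (x0 - 1) (x0 : C2) = x0 := rep_coe (Ioo_subset_Ico_self hmem)
  have hF' : ContMDiffAt 𝓘(ℝ, ℝ) 𝓘(ℝ, ℝ) k F (rep (x0 - 1) (x0 : C2)) := by
    rw [hrx]; exact hF.contMDiffAt
  have h2 := (contMDiff_coe k).contMDiffAt.comp (x0 : C2) (hF'.comp (x0 : C2) hr)
  refine h2.congr_of_eventuallyEq ?_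
  have hc : ContinuousAt (rep (x0 - 1)) (x0 : C2) := hr.continuousAt
  have hev' : ∀ᶠ q in 𝓝 (x0 : C2), h ((rep (x0 - 1) q : ℝ) : C2) = ((F (rep (x0 - 1) q) : ℝ) : C2) := by
    have : Filter.Tendsto (rep (x0 - 1)) (𝓝 (x0 : C2)) (𝓝 x0) := by
      have := hc.tendsto
      rwa [hrx] at this
    exact this.eventually hev
  filter_upwards [hev'] with q hq
  rw [coe_rep] at hq
  exact hq

end Pool.Agent.Q92.Dbl
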