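import Mathlib.MeasureTheory.Integral.IntervalIntegral.FundThmCalculus
import Mathlib.MeasureTheory.Integral.IntervalIntegral.IntegrationByParts
import Mathlib.Analysis.Calculus.ContDiff.Deriv

/-!
Odd reflection of a once continuously differentiable function at an end point.
-/

set_option autoImplicit false

open Set
open scoped Topology ContDiff

namespace Pool.Agent.Q92.Dbl

lemma exists_reflect (G : ℝ → ℝ) (hG : ContDiffOn ℝ 1 G (Icc 0 1)) :
    ∃ R : ℝ → ℝ, ContDiff ℝ 1 R ∧ ∀ t ∈ Icc (0:ℝ) 1, R t = G t ∧ R (-t) = 2 * G 0 - G t := by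
  have hd : ContinuousOn (derivWithin G (Icc 0 1)) (Icc 0 1) :=
    hG.continuousOn_derivWithin (uniqueDiffOn_Icc one_pos) le_rfl
  let γ : ℝ → ℝ := IccExtend (zero_le_one' ℝ) ((Icc (0:ℝ) 1).domRestrict (derivWithin G (Icc 0 1)))
  have hγ : Continuous γ := (continuousOn_iff_continuous_domRestrict.1 hd).Icc_extend'
  have hγ2 : ∀ t ∈ Icc (0:ℝ) 1, γ t = derivWithin G (Icc 0 1) t := by
    intro t ht
    exact IccExtend_of_mem _ _ ht
  let δ : ℝ → ℝ := fun s => γ |s|
  have hδ : Continuous δ := hγ.comp continuous_abs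
  let R : ℝ → ℝ := fun t => G 0 + ∫ s in (0:ℝ)..t, δ s
  have hR : ∀ t, HasDerivAt R (δ t) t := by
    intro t
    have h1 : HasDerivAt (fun t => ∫ s in (0:ℝ)..t, δ s) (δ t) t :=
      intervalIntegral.integral_hasDerivAt_right (hδ.intervalIntegrable _ _)
        (hδ.stronglyMeasurableAtFilter _ _) hδ.continuousAt
    exact h1.const_add (G 0)
  have hint : ∀ t ∈ Icc (0:ℝ) 1, ∫ s in (0:ℝ)..t, δ s = G t - G 0 := by
    intro t ht
    apply intervalIntegral.integral_eq_sub_of_hasDeriv_right
    · rw [uIcc_of_le ht.1]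
      exact hG.continuousOn.mono (Icc_subset_Icc_right ht.2)
    · intro x hx
      rw [min_eq_left ht.1, max_eq_right ht.1] at hx
      have hx' : x ∈ Icc (0:ℝ) 1 := ⟨hx.1.le, hx.2.le.trans ht.2⟩
      have hx'' : x < 1 := hx.2.trans_le ht.2
      have h1 : HasDerivWithinAt G (derivWithin G (Icc 0 1) x) (Icc 0 1) x :=
        ((hG.differentiableOn one_ne_zero) x hx').hasDerivWithinAt
      have h2 : HasDerivAt G (derivWithin G (Icc 0 1) x) x := h1.hasDerivAt (Icc_mem_nhds hx.1 hx'')
      have h3 : δ x = derivWithin G (Icc 0 1) x := by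
        show γ |x| = _
        rw [abs_of_nonneg hx.1.le, hγ2 x hx']
      rw [h3]
      exact h2.hasDerivWithinAt
    · exact hδ.intervalIntegrable _ _
  refine ⟨R, ?_, ?_⟩
  · rw [contDiff_one_iff_deriv]
    refine ⟨fun t => (hR t).differentiableAt, ?_⟩
    have : deriv R = δ := funext fun t => (hR t).deriv
    rw [this]
    exact hδ
  · intro t ht
    constructor
    · show G 0 + ∫ s in (0:ℝ)..t, δ s = G t
      rw [hint t ht]; ring
    · show G 0 + ∫ s in (0:ℝ)..(-t), δ s = 2 * G 0 - G t
      have h1 : ∫ s in (0:ℝ)..(-t), δ s = - ∫ s in (0:ℝ)..t, δ s := by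
        rw [intervalIntegral.integral_symm]
        congr 1
        have h2 := intervalIntegral.integral_comp_neg (a := 0) (b := t) δ
        rw [neg_zero] at h2
        rw [← h2]
        apply intervalIntegral.integral_congr
        intro x _
        show δ (-x) = δ x
        show γ |-x| = γ |x|
        rw [abs_neg]
      rw [h1, hint t ht]; ring

end Pool.Agent.Q92.Dbl
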