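import Pool.Agent.Q92.Dbl.Circ
import Pool.Agent.Q92.Dbl.Reflect

/-!
Doubling of the action on the interval to an action on the circle.
-/

set_option autoImplicit false

open Set
open scoped Manifold Topology ContDiff

namespace Pool.Agent.Q92.Dbl

/-- the unit interval -/
abbrev I1 : Type := Icc (0 : ℝ) 1

/-- The real function attached to a self map of the interval. -/
noncomputable def ext (f : I1 → I1) (t : ℝ) : ℝ := (f (projIcc 0 1 zero_le_one t) : ℝ)

lemma ext_of_mem (f : I1 → I1) {t : ℝ} (ht : t ∈ Icc (0:ℝ) 1) : ext f t = (f ⟨t, ht⟩ : ℝ) := by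
  unfold ext; rw [projIcc_of_mem _ ht]

lemma ext_mem (f : I1 → I1) (t : ℝ) : ext f t ∈ Icc (0:ℝ) 1 := (f _).2

lemma ext_comp (f g : I1 → I1) (t : ℝ) : ext (f ∘ g) t = ext f (ext g t) := by
  rw [ext_of_mem f (ext_mem g t)]
  rfl

/-- `f` maps end points to end points -/
def Ends (f : I1 → I1) : Prop := (ext f 0 = 0 ∨ ext f 0 = 1) ∧ (ext f 1 = 0 ∨ ext f 1 = 1)

/-- the double of a self map of the interval -/
noncomputable def dbl (f : I1 → I1) (p : C2) : C2 :=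
  if 0 ≤ rep (-1) p then ((ext f (rep (-1) p) : ℝ) : C2)
  else (( - ext f (- rep (-1) p) : ℝ) : C2)

lemma coe_neg_of_int {x : ℝ} (h : x = 0 ∨ x = 1) : ((-x : ℝ) : C2) = (x : C2) := by
  rcases h with h | h
  · rw [h, neg_zero]
  · rw [h, coe_eq_iff]; exact ⟨-1, by norm_num⟩

lemma dbl_pos {f : I1 → I1} (hf : Ends f) {y : ℝ} (hy : y ∈ Icc (0:ℝ) 1) :
    dbl f (y : C2) = ((ext f y : ℝ) : C2) := by
  rcases eq_or_lt_of_le hy.2 with h | h
  · subst h
    have h1 : rep (-1) ((1 : ℝ) : C2) = -1 := by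
      have : ((1 : ℝ) : C2) = ((-1 : ℝ) : C2) := by
        rw [coe_eq_iff]; exact ⟨1, by norm_num⟩
      rw [this]
      exact rep_coe ⟨le_rfl, by norm_num⟩
    unfold dbl
    rw [h1, if_neg (by norm_num), neg_neg, coe_neg_of_int hf.2]
  · unfold dbl
    rw [rep_coe ⟨by linarith [hy.1], by linarith⟩, if_pos hy.1]

lemma dbl_neg {f : I1 → I1} (hf : Ends f) {y : ℝ} (hy : y ∈ Icc (0:ℝ) 1) :
    dbl f ((-y : ℝ) : C2) = ((- ext f y : ℝ) : C2) := by
  rcases eq_or_lt_of_le hy.1 with h | h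
  · subst h
    rw [neg_zero, dbl_pos hf ⟨le_rfl, zero_le_one⟩, coe_neg_of_int hf.1]
  · unfold dbl
    rw [rep_coe ⟨by linarith [hy.2], by linarith⟩, if_neg (by linarith), neg_neg]

lemma exists_rep (p : C2) : ∃ y ∈ Icc (0:ℝ) 1, p = (y : C2) ∨ p = ((-y : ℝ) : C2) := by
  have h := rep_mem (-1) p
  rcases le_total 0 (rep (-1) p) with h0 | h0
  · exact ⟨rep (-1) p, ⟨h0, by linarith [h.2]⟩, Or.inl (coe_rep _ _).symm⟩
  · exact ⟨-rep (-1) p, ⟨by linarith, by linarith [h.1]⟩, Or.inr (by rw [neg_neg, coe_rep])⟩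

lemma dbl_comp {f g : I1 → I1} (hf : Ends f) (hg : Ends g) (hfg : Ends (f ∘ g)) :
    dbl (f ∘ g) = dbl f ∘ dbl g := by
  funext p
  obtain ⟨y, hy, rfl | rfl⟩ := exists_rep p
  · rw [dbl_pos hfg hy, Function.comp_apply, dbl_pos hg hy, dbl_pos hf (ext_mem g y), ext_comp]
  · rw [dbl_neg hfg hy, Function.comp_apply, dbl_neg hg hy, dbl_neg hf (ext_mem g y), ext_comp]

lemma ext_id {t : ℝ} (ht : t ∈ Icc (0:ℝ) 1) : ext id t = t := by
  rw [ext_of_mem _ ht]; rfl

lemma ends_id : Ends id :=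
  ⟨Or.inl (ext_id ⟨le_rfl, zero_le_one⟩), Or.inr (ext_id ⟨zero_le_one, le_rfl⟩)⟩

lemma dbl_id : dbl id = id := by
  funext p
  obtain ⟨y, hy, rfl | rfl⟩ := exists_rep p
  · rw [dbl_pos ends_id hy, ext_id hy]; rfl
  · rw [dbl_neg ends_id hy, ext_id hy]; rfl

lemma coe_inj_Icc {x y : ℝ} (hx : x ∈ Icc (0:ℝ) 1) (hy : y ∈ Icc (0:ℝ) 1)
    (h : (x : C2) = (y : C2)) : x = y := by
  have := (AddCircle.coe_eq_coe_iff_of_mem_Ico (p := (2 : ℝ)) (a := 0)
    ⟨hx.1, by linarith [hx.2]⟩ ⟨hy.1, by linarith [hy.2]⟩).1 h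
  exact this

lemma dbl_injective {f g : I1 → I1} (hf : Ends f) (hg : Ends g) (h : dbl f = dbl g) : f = g := by
  funext x
  have h1 := congrFun h ((x : ℝ) : C2)
  rw [dbl_pos hf x.2, dbl_pos hg x.2] at h1
  have h2 := coe_inj_Icc (ext_mem f _) (ext_mem g _) h1
  rw [ext_of_mem f x.2, ext_of_mem g x.2] at h2
  exact Subtype.ext h2

/-- homeomorphisms preserve the end points -/
lemma ends_of_bij {f : I1 → I1} (hf : Continuous f) (hb : Function.Bijective f) : Ends f := by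
  have hc : ContinuousOn (ext f) (Icc 0 1) := by
    apply Continuous.continuousOn
    exact continuous_subtype_val.comp (hf.comp continuous_projIcc)
  have hinj : InjOn (ext f) (Icc 0 1) := by
    intro x hx y hy hxy
    rw [ext_of_mem f hx, ext_of_mem f hy] at hxy
    have := hb.1 (Subtype.ext hxy)
    exact congrArg Subtype.val this
  obtain ⟨a, ha⟩ := hb.2 ⟨0, le_rfl, zero_le_one⟩
  obtain ⟨b, hb'⟩ := hb.2 ⟨1, zero_le_one, le_rfl⟩
  have ha' : ext f a = 0 := by rw [ext_of_mem f a.2]; exact congrArg Subtype.val ha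
  have hb'' : ext f b = 1 := by rw [ext_of_mem f b.2]; exact congrArg Subtype.val hb'
  have h0 : (0:ℝ) ∈ Icc (0:ℝ) 1 := ⟨le_rfl, zero_le_one⟩
  have h1 : (1:ℝ) ∈ Icc (0:ℝ) 1 := ⟨zero_le_one, le_rfl⟩
  rcases hc.strictMonoOn_of_injOn_Icc' zero_le_one hinj with hm | hm
  · have e1 : ext f 0 ≤ ext f a := (hm.le_iff_le h0 a.2).2 a.2.1
    have e2 : ext f b ≤ ext f 1 := (hm.le_iff_le b.2 h1).2 b.2.2
    rw [ha'] at e1
    rw [hb''] at e2
    exact ⟨Or.inl (le_antisymm e1 (ext_mem f 0).1), Or.inr (le_antisymm (ext_mem f 1).2 e2)⟩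
  · have e1 : ext f 1 ≤ ext f a := (hm.le_iff_ge h1 a.2).2 a.2.2
    have e2 : ext f b ≤ ext f 0 := (hm.le_iff_ge b.2 h0).2 b.2.1
    rw [ha'] at e1
    rw [hb''] at e2
    exact ⟨Or.inr (le_antisymm (ext_mem f 0).2 e2), Or.inl (le_antisymm e1 (ext_mem f 1).1)⟩

lemma contDiffOn_ext {f : I1 → I1} {k : WithTop ℕ∞} (hf : ContMDiff (𝓡∂ 1) (𝓡∂ 1) k f) :
    ContDiffOn ℝ k (ext f) (Icc 0 1) := by
  rw [← contMDiffOn_iff_contDiffOn]
  have h1 : ContMDiffOn 𝓘(ℝ, ℝ) (𝓡∂ 1) k (f ∘ (projIcc (0:ℝ) 1 zero_le_one)) (Icc 0 1) :=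
    contMDiffOn_comp_projIcc_iff.2 hf
  exact (contMDiff_subtypeVal_Icc (x := (0:ℝ)) (y := 1) (n := k)).comp_contMDiffOn h1

lemma contMDiff_dbl {f : I1 → I1} (hf : ContMDiff (𝓡∂ 1) (𝓡∂ 1) 1 f) (he : Ends f) :
    ContMDiff (𝓡∂ 1) (𝓡∂ 1) 1 (dbl f) := by
  have hF := contDiffOn_ext hf
  apply contMDiff_of_lift
  intro x0 hx0
  rcases eq_or_lt_of_le hx0.2 with h | h
  · -- the point 1
    subst h
    have hG : ContDiffOn ℝ 1 (fun t => ext f (1 - t)) (Icc 0 1) := by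
      have h1 : ContDiffOn ℝ 1 (fun t : ℝ => 1 - t) (Icc 0 1) := by fun_prop
      refine hF.comp h1 ?_
      intro t ht
      exact ⟨by linarith [ht.2], by linarith [ht.1]⟩
    obtain ⟨R, hR, hR2⟩ := exists_reflect _ hG
    refine ⟨fun t => R (1 - t), ?_, ?_⟩
    · exact (hR.comp (by fun_prop : ContDiff ℝ 1 fun t : ℝ => 1 - t)).contDiffAt
    · filter_upwards [Ioo_mem_nhds (show (0:ℝ) < 1 by norm_num) (show (1:ℝ) < 2 by norm_num)]
        with t ht
      rcases le_total t 1 with h | h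
      · rw [dbl_pos he ⟨ht.1.le, h⟩, (hR2 (1 - t) ⟨by linarith, by linarith [ht.1]⟩).1]
        simp
      · have h3 := (hR2 (t - 1) ⟨by linarith, by linarith [ht.2]⟩).2
        have h4 : 1 - t = - (t - 1) := by ring
        rw [h4, h3]
        have h5 : ((t : ℝ) : C2) = ((-(2 - t) : ℝ) : C2) := by
          rw [coe_eq_iff]; exact ⟨1, by push_cast; ring⟩
        rw [h5, dbl_neg he ⟨by linarith [ht.2], by linarith⟩]
        have h6 : (1 : ℝ) - (t - 1) = 2 - t := by ring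
        simp only [sub_zero]
        rw [h6, coe_eq_iff]
        rcases he.2 with h7 | h7
        · exact ⟨0, by rw [h7]; push_cast; ring⟩
        · exact ⟨-1, by rw [h7]; push_cast; ring⟩
  · obtain ⟨R, hR, hR2⟩ := exists_reflect _ hF
    refine ⟨R, hR.contDiffAt, ?_⟩
    filter_upwards [Ioo_mem_nhds hx0.1 h] with t ht
    rcases le_total 0 t with h | h
    · rw [dbl_pos he ⟨h, ht.2.le⟩, (hR2 t ⟨h, ht.2.le⟩).1]
    · have h3 := (hR2 (-t) ⟨by linarith, by linarith [ht.1]⟩).2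
      rw [neg_neg] at h3
      have h4 := dbl_neg he (y := -t) ⟨by linarith, by linarith [ht.1]⟩
      rw [neg_neg] at h4
      rw [h3, h4, coe_eq_iff]
      rcases he.1 with h7 | h7
      · exact ⟨0, by rw [h7]; push_cast; ring⟩
      · exact ⟨-1, by rw [h7]; push_cast; ring⟩

/-- the interval is not homeomorphic to the circle -/
lemma not_homeo (e : I1 ≃ₜ C2) : False := by
  -- remove the middle point
  have h2 : (0:ℝ) < 2 := by norm_num
  set m : I1 := ⟨1 / 2, by norm_num, by norm_num⟩ with hm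
  set q : C2 := e m with hq
  -- the complement of a point in the circle is connected
  have hconn : IsConnected ({q}ᶜ : Set C2) := by
    have h1 : ({q}ᶜ : Set C2) = (fun x : ℝ => (x : C2)) '' Ioo (rep 0 q) (rep 0 q + 2) := by
      ext p
      constructor
      · intro hp
        have hp' : p ≠ ((rep 0 q : ℝ) : C2) := by rw [coe_rep]; exact hp
        exact ⟨rep (rep 0 q) p, rep_mem_Ioo hp', coe_rep _ _⟩
      · rintro ⟨x, hx, rfl⟩
        have := coe_ne hx
        rw [coe_rep] at this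
        exact this
    rw [h1]
    exact (isConnected_Ioo (by linarith)).image _ (AddCircle.continuous_mk' (2:ℝ)).continuousOn
  have hconn2 : IsConnected ({m}ᶜ : Set I1) := by
    have h1 : ({m}ᶜ : Set I1) = e.symm '' ({q}ᶜ : Set C2) := by
      rw [image_compl_eq e.symm.bijective, image_singleton, hq, e.symm_apply_apply]
    rw [h1]
    exact hconn.image _ e.symm.continuous.continuousOn
  have hconn3 : IsPreconnected ((Subtype.val : I1 → ℝ) '' ({m}ᶜ : Set I1)) :=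
    hconn2.isPreconnected.image _ continuous_subtype_val.continuousOn
  have hord := hconn3.ordConnected
  have h0 : (0:ℝ) ∈ (Subtype.val : I1 → ℝ) '' ({m}ᶜ : Set I1) :=
    ⟨⟨0, by norm_num, by norm_num⟩, fun h => by
      have := congrArg Subtype.val h
      norm_num [hm] at this, rfl⟩
  have h1 : (1:ℝ) ∈ (Subtype.val : I1 → ℝ) '' ({m}ᶜ : Set I1) :=
    ⟨⟨1, by norm_num, by norm_num⟩, fun h => by
      have := congrArg Subtype.val h
      norm_num [hm] at this, rfl⟩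
  have hhalf := hord.out h0 h1 (show (1/2 : ℝ) ∈ Icc (0:ℝ) 1 by norm_num)
  obtain ⟨y, hy, hy2⟩ := hhalf
  exact hy (Subtype.ext hy2)

end Pool.Agent.Q92.Dbl
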